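import Pool.Agent.Lib.MP_fe51c6_an_EO.Bridge

/-! For each of the parts (a), (b), (c) of the equivariant Oka principle, and for the variant (c')
of (c) where the intermediate maps are also holomorphic near `Z` and `A`: the statement for all
Stein `G`-manifolds with closed orbits (question Q2) is equivalent to the statement for all Stein
`G`-manifolds with finite stabilisers (the case listed as known). -/

theorem Pool.Agent.Results.MP_fe51c6_an.ClosedOrbits.result :
    ∀ p : EquivOka.Part, EquivOka.EOPClosedOrbits p ↔ EquivOka.EOPFiniteStabilisers p :=
  EquivOka.closed_iff_finite
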